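import Mathlib

/-!
A weighted pendulum equation with a centre constraint: a solution connecting `-π/2` to `π/2` with
`φ(0) = 0` need not have the sign of `x`.
The weight is `a(x) = 1 + sin² x` for `|x| ≤ π` and `a(x) = 1` otherwise; `φ` is odd and equal to
`- arctan (sin x)` on `[0,π]` and to `arctan (sinh (x - π))` on `[π,∞)`.
-/

namespace Pool.Agent.Results.MP_4601b9_an.SignChange

open MeasureTheory Set Filter Topology
open scoped ContDiff

/-- Weights: measurable, bounded, and bounded below by a positive constant, almost everywhere. -/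
def IsWeight (a : ℝ → ℝ) : Prop :=
  Measurable a ∧ ∃ a₀ A₀ : ℝ, 0 < a₀ ∧ a₀ ≤ A₀ ∧ ∀ᵐ x : ℝ, a₀ ≤ a x ∧ a x ≤ A₀

/-- `φ` belongs to `Ḣ¹(ℝ)` and `g` is its weak derivative: `g ∈ L²` and `φ(y) - φ(x) = ∫_x^y g`. -/
def IsHdot1 (φ g : ℝ → ℝ) : Prop :=
  MemLp g 2 volume ∧ ∀ x y : ℝ, φ y - φ x = ∫ t in x..y, g t

/-- `(a φ')' + a sin φ cos φ = 0` in the sense of distributions on `ℝ \\ {0}`, with `g = φ'`. -/
def SolvesE (a φ g : ℝ → ℝ) : Prop :=
  ∀ ζ : ℝ → ℝ, ContDiff ℝ ∞ ζ → HasCompactSupport ζ → (0 : ℝ) ∉ tsupport ζ →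
    -(∫ x, a x * g x * deriv ζ x) + ∫ x, a x * Real.sin (φ x) * Real.cos (φ x) * ζ x = 0

/-- The constraints. -/
def ConstraintK (φ : ℝ → ℝ) : Prop :=
  φ 0 = 0 ∧ Tendsto φ atTop (𝓝 (Real.pi / 2)) ∧ Tendsto φ atBot (𝓝 (-(Real.pi / 2)))

/-- weight on the half line -/
noncomputable def ap (x : ℝ) : ℝ := if x ≤ Real.pi then 1 + Real.sin x ^ 2 else 1
/-- solution on the half line -/
noncomputable def pp (x : ℝ) : ℝ :=
  if x ≤ Real.pi then -Real.arctan (Real.sin x) else Real.arctan (Real.sinh (x - Real.pi))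
/-- derivative on the half line -/
noncomputable def gp (x : ℝ) : ℝ :=
  if x ≤ Real.pi then -(Real.cos x / (1 + Real.sin x ^ 2)) else 1 / Real.cosh (x - Real.pi)
/-- flux on the half line -/
noncomputable def Fp (x : ℝ) : ℝ :=
  if x ≤ Real.pi then -Real.cos x else 1 / Real.cosh (x - Real.pi)
/-- source on the half line -/
noncomputable def sp (x : ℝ) : ℝ :=
  if x ≤ Real.pi then -Real.sin x else Real.sinh (x - Real.pi) / Real.cosh (x - Real.pi) ^ 2

/-- the weight -/
noncomputable def a (x : ℝ) : ℝ := ap |x|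
/-- the solution -/
noncomputable def φ (x : ℝ) : ℝ := if 0 ≤ x then pp x else -pp (-x)
/-- its derivative -/
noncomputable def g (x : ℝ) : ℝ := gp |x|
/-- the flux -/
noncomputable def F (x : ℝ) : ℝ := Fp |x|
/-- the source -/
noncomputable def S (x : ℝ) : ℝ := if 0 ≤ x then sp x else -sp (-x)

lemma cosh_ne (x : ℝ) : Real.cosh x ≠ 0 := (Real.cosh_pos x).ne'

lemma one_add_sin (x : ℝ) : 0 < 1 + Real.sin x ^ 2 := by positivity

lemma ap_cont : Continuous ap := by
  unfold ap
  refine Continuous.if_le (by fun_prop) continuous_const continuous_id continuous_const ?_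
  intro x hx; subst hx; simp

lemma pp_cont : Continuous pp := by
  unfold pp
  refine Continuous.if_le ?_ ?_ continuous_id continuous_const ?_
  · exact (Real.continuous_arctan.comp Real.continuous_sin).neg
  · exact Real.continuous_arctan.comp (Real.continuous_sinh.comp (by fun_prop))
  · intro x hx; subst hx; simp

lemma gp_cont : Continuous gp := by
  unfold gp
  refine Continuous.if_le ?_ ?_ continuous_id continuous_const ?_
  · exact (Real.continuous_cos.div (by fun_prop) fun x => (one_add_sin x).ne').neg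
  · exact continuous_const.div (Real.continuous_cosh.comp (by fun_prop)) fun x => cosh_ne _
  · intro x hx; subst hx; simp

lemma Fp_cont : Continuous Fp := by
  unfold Fp
  refine Continuous.if_le ?_ ?_ continuous_id continuous_const ?_
  · exact Real.continuous_cos.neg
  · exact continuous_const.div (Real.continuous_cosh.comp (by fun_prop)) fun x => cosh_ne _
  · intro x hx; subst hx; simp

lemma sp_cont : Continuous sp := by
  unfold sp
  refine Continuous.if_le ?_ ?_ continuous_id continuous_const ?_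
  · exact Real.continuous_sin.neg
  · exact (Real.continuous_sinh.comp (by fun_prop)).div
      ((Real.continuous_cosh.comp (by fun_prop)).pow 2) fun x => pow_ne_zero 2 (cosh_ne _)
  · intro x hx; subst hx; simp

lemma a_cont : Continuous a := ap_cont.comp continuous_abs
lemma g_cont : Continuous g := gp_cont.comp continuous_abs
lemma F_cont : Continuous F := Fp_cont.comp continuous_abs

lemma pp_zero : pp 0 = 0 := by unfold pp; rw [if_pos Real.pi_pos.le]; simp
lemma sp_zero : sp 0 = 0 := by unfold sp; rw [if_pos Real.pi_pos.le]; simp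

lemma φ_cont : Continuous φ := by
  unfold φ
  refine Continuous.if_le pp_cont (pp_cont.comp continuous_neg).neg continuous_const continuous_id ?_
  intro x hx; rw [← hx]; simp [pp_zero]

lemma S_cont : Continuous S := by
  unfold S
  refine Continuous.if_le sp_cont (sp_cont.comp continuous_neg).neg continuous_const continuous_id ?_
  intro x hx; rw [← hx]; simp [sp_zero]

lemma ap_gp (x : ℝ) : ap x * gp x = Fp x := by
  unfold ap gp Fp
  by_cases h : x ≤ Real.pi
  · rw [if_pos h, if_pos h, if_pos h]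
    have := (one_add_sin x).ne'
    field_simp
  · rw [if_neg h, if_neg h, if_neg h]; ring

lemma a_g (x : ℝ) : a x * g x = F x := ap_gp |x|

lemma src (x : ℝ) : ap x * Real.sin (pp x) * Real.cos (pp x) = sp x := by
  unfold ap pp sp
  by_cases h : x ≤ Real.pi
  · rw [if_pos h, if_pos h, if_pos h, Real.sin_neg, Real.cos_neg, Real.sin_arctan, Real.cos_arctan]
    have h1 := one_add_sin x
    have h3 : Real.sqrt (1 + Real.sin x ^ 2) ≠ 0 := (Real.sqrt_pos.mpr h1).ne'
    have h2 : Real.sqrt (1 + Real.sin x ^ 2) ^ 2 = 1 + Real.sin x ^ 2 := Real.sq_sqrt h1.le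
    generalize Real.sqrt (1 + Real.sin x ^ 2) = r at h2 h3
    rw [← h2]
    field_simp
  · rw [if_neg h, if_neg h, if_neg h, Real.sin_arctan, Real.cos_arctan]
    have h1 : 1 + Real.sinh (x - Real.pi) ^ 2 = Real.cosh (x - Real.pi) ^ 2 := by
      rw [Real.cosh_sq]; ring
    rw [h1, Real.sqrt_sq (Real.cosh_pos _).le]
    have := cosh_ne (x - Real.pi)
    field_simp

lemma src' (x : ℝ) : a x * Real.sin (φ x) * Real.cos (φ x) = S x := by
  unfold a φ S
  by_cases h : 0 ≤ x
  · rw [if_pos h, if_pos h, abs_of_nonneg h, src]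
  · rw [if_neg h, if_neg h, abs_of_neg (not_le.mp h), Real.sin_neg, Real.cos_neg, ← src]; ring

lemma pp_der {x : ℝ} (hx : x ≠ Real.pi) : HasDerivAt pp (gp x) x := by
  rcases lt_or_gt_of_ne hx with h | h
  · have h1 : HasDerivAt (fun x => -Real.arctan (Real.sin x)) (-(1 / (1 + Real.sin x ^ 2) * Real.cos x)) x :=
      ((Real.hasDerivAt_sin x).arctan).fun_neg
    have e : gp x = -(1 / (1 + Real.sin x ^ 2) * Real.cos x) := by
      unfold gp; rw [if_pos h.le]; ring
    rw [e]
    refine h1.congr_of_eventuallyEq ?_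
    filter_upwards [Iio_mem_nhds h] with y hy
    unfold pp; rw [if_pos (le_of_lt hy)]
  · have h0 : HasDerivAt (fun x => x - Real.pi) 1 x := (hasDerivAt_id x).sub_const _
    have h1 := (h0.sinh).arctan
    have e : gp x = 1 / (1 + Real.sinh (x - Real.pi) ^ 2) * (Real.cosh (x - Real.pi) * 1) := by
      unfold gp; rw [if_neg (not_le.mpr h)]
      have h1 : 1 + Real.sinh (x - Real.pi) ^ 2 = Real.cosh (x - Real.pi) ^ 2 := by
        rw [Real.cosh_sq]; ring
      rw [h1]
      have := cosh_ne (x - Real.pi)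
      field_simp
    rw [e]
    refine h1.congr_of_eventuallyEq ?_
    filter_upwards [Ioi_mem_nhds h] with y hy
    unfold pp; rw [if_neg (not_le.mpr hy)]

lemma Fp_der {x : ℝ} (hx : x ≠ Real.pi) : HasDerivAt Fp (-sp x) x := by
  rcases lt_or_gt_of_ne hx with h | h
  · have h1 : HasDerivAt (fun x => -Real.cos x) (-(-Real.sin x)) x := (Real.hasDerivAt_cos x).fun_neg
    have e : -sp x = -(-Real.sin x) := by unfold sp; rw [if_pos h.le]
    rw [e]
    refine h1.congr_of_eventuallyEq ?_
    filter_upwards [Iio_mem_nhds h] with y hy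
    unfold Fp; rw [if_pos (le_of_lt hy)]
  · have h0 : HasDerivAt (fun x => x - Real.pi) 1 x := (hasDerivAt_id x).sub_const _
    have h1 := (hasDerivAt_const x (1:ℝ)).fun_div (h0.cosh) (cosh_ne _)
    have e : -sp x = (0 * Real.cosh (x - Real.pi) - 1 * (Real.sinh (x - Real.pi) * 1)) /
        Real.cosh (x - Real.pi) ^ 2 := by
      unfold sp; rw [if_neg (not_le.mpr h)]; ring
    rw [e]
    refine h1.congr_of_eventuallyEq ?_
    filter_upwards [Ioi_mem_nhds h] with y hy
    unfold Fp; rw [if_neg (not_le.mpr hy)]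

/-- exceptional points -/
def ex : Set ℝ := {0, Real.pi, -Real.pi}

lemma ex_countable : ex.Countable := by unfold ex; exact (Set.toFinite _).countable

lemma φ_der {x : ℝ} (hx : x ∉ ex) : HasDerivAt φ (g x) x := by
  simp only [ex, mem_insert_iff, mem_singleton_iff, not_or] at hx
  obtain ⟨h0, h1, h2⟩ := hx
  rcases lt_or_gt_of_ne h0 with h | h
  · have h3 : HasDerivAt (fun y => -pp (-y)) (gp (-x)) x := by
      have h4 : HasDerivAt pp (gp (-x)) (-x) := pp_der (fun e => h2 (by linarith))
      have := (HasDerivAt.comp x h4 (hasDerivAt_neg x)).neg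
      refine this.congr_deriv ?_
      ring
    have e : g x = gp (-x) := by unfold g; rw [abs_of_neg h]
    rw [e]
    refine h3.congr_of_eventuallyEq ?_
    filter_upwards [Iio_mem_nhds h] with y hy
    unfold φ; rw [if_neg (not_le.mpr hy)]
  · have e : g x = gp x := by unfold g; rw [abs_of_pos h]
    rw [e]
    refine (pp_der h1).congr_of_eventuallyEq ?_
    filter_upwards [Ioi_mem_nhds h] with y hy
    unfold φ; rw [if_pos (le_of_lt hy)]

lemma F_der {x : ℝ} (hx : x ∉ ex) : HasDerivAt F (-S x) x := by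
  simp only [ex, mem_insert_iff, mem_singleton_iff, not_or] at hx
  obtain ⟨h0, h1, h2⟩ := hx
  rcases lt_or_gt_of_ne h0 with h | h
  · have h3 : HasDerivAt (fun y => Fp (-y)) (sp (-x)) x := by
      have h4 : HasDerivAt Fp (-sp (-x)) (-x) := Fp_der (fun e => h2 (by linarith))
      have := HasDerivAt.comp x h4 (hasDerivAt_neg x)
      refine this.congr_deriv ?_
      ring
    have e : -S x = sp (-x) := by unfold S; rw [if_neg (not_le.mpr h)]; ring
    rw [e]
    refine h3.congr_of_eventuallyEq ?_
    filter_upwards [Iio_mem_nhds h] with y hy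
    unfold F; rw [abs_of_neg hy]
  · have e : -S x = -sp x := by unfold S; rw [if_pos h.le]
    rw [e]
    refine (Fp_der h1).congr_of_eventuallyEq ?_
    filter_upwards [Ioi_mem_nhds h] with y hy
    unfold F; rw [abs_of_pos hy]

lemma g_sq (x : ℝ) : g x ^ 2 ≤ (2 + 2 * Real.pi ^ 2) * (1 + x ^ 2)⁻¹ := by
  rw [← div_eq_mul_inv, le_div_iff₀ (by positivity)]
  unfold g gp
  have hx2 : |x| ^ 2 = x ^ 2 := sq_abs x
  have hx0 := abs_nonneg x
  by_cases h : |x| ≤ Real.pi
  · rw [if_pos h, neg_sq, div_pow]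
    have h1 : Real.cos |x| ^ 2 / (1 + Real.sin |x| ^ 2) ^ 2 ≤ 1 := by
      rw [div_le_one (by positivity)]
      nlinarith [Real.sin_sq_add_cos_sq |x|, sq_nonneg (Real.sin |x|), sq_nonneg (Real.sin |x| ^ 2)]
    have h2 : 1 + x ^ 2 ≤ 1 + Real.pi ^ 2 := by rw [← hx2]; nlinarith
    have h3 : 0 ≤ Real.cos |x| ^ 2 / (1 + Real.sin |x| ^ 2) ^ 2 := by positivity
    nlinarith [sq_nonneg x, sq_nonneg Real.pi]
  · rw [if_neg h]
    rw [not_le] at h
    set y := |x| - Real.pi with hy
    have hy0 : 0 < y := by linarith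
    have h1 : 1 + y ^ 2 ≤ Real.cosh y ^ 2 := by
      rw [Real.cosh_sq]
      have := Real.self_le_sinh_iff.mpr hy0.le
      nlinarith
    have h2 : (1 / Real.cosh y) ^ 2 ≤ 1 / (1 + y ^ 2) := by
      rw [div_pow, one_pow]
      exact one_div_le_one_div_of_le (by positivity) h1
    have h3 : 1 + x ^ 2 ≤ (2 + 2 * Real.pi ^ 2) * (1 + y ^ 2) := by
      have e : |x| = y + Real.pi := by rw [hy]; ring
      rw [← hx2, e]
      nlinarith [sq_nonneg (y - Real.pi), sq_nonneg (y * Real.pi), Real.pi_pos]
    have h4 : 0 < 1 + y ^ 2 := by positivity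
    calc (1 / Real.cosh y) ^ 2 * (1 + x ^ 2) ≤ 1 / (1 + y ^ 2) * ((2 + 2 * Real.pi ^ 2) * (1 + y ^ 2)) := by
          gcongr
      _ = 2 + 2 * Real.pi ^ 2 := by field_simp

lemma hdot : IsHdot1 φ g := by
  refine ⟨?_, fun x y => ?_⟩
  · rw [memLp_two_iff_integrable_sq g_cont.aestronglyMeasurable]
    have h1 : Integrable (fun x : ℝ => (2 + 2 * Real.pi ^ 2) * (1 + x ^ 2)⁻¹) :=
      integrable_inv_one_add_sq.const_mul _
    refine h1.mono' (g_cont.pow 2).aestronglyMeasurable (Eventually.of_forall fun x => ?_)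
    rw [Real.norm_eq_abs, abs_of_nonneg (sq_nonneg _)]
    exact g_sq x
  · exact (integral_eq_of_hasDerivAt_off_countable φ g ex_countable φ_cont.continuousOn
      (fun x hx => φ_der hx.2) (g_cont.intervalIntegrable _ _)).symm

/-- The equation holds for all test functions, even those not vanishing near the origin. -/
lemma weak (ζ : ℝ → ℝ) (hζ : ContDiff ℝ ∞ ζ) (hc : HasCompactSupport ζ) :
    -(∫ x, a x * g x * deriv ζ x) + ∫ x, a x * Real.sin (φ x) * Real.cos (φ x) * ζ x = 0 := by
  have hζd : Continuous (deriv ζ) := hζ.continuous_deriv (by exact_mod_cast le_top)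
  simp_rw [a_g, src']
  have i1 : Integrable fun x => F x * deriv ζ x :=
    (F_cont.mul hζd).integrable_of_hasCompactSupport (hc.deriv.mul_left)
  have i2 : Integrable fun x => S x * ζ x :=
    (S_cont.mul hζ.continuous).integrable_of_hasCompactSupport (hc.mul_left)
  have e : ∫ x, (F x * deriv ζ x - S x * ζ x) = 0 := by
    obtain ⟨R, hR⟩ := hc.isCompact.isBounded.subset_closedBall 0
    set r : ℝ := |R| + 1 with hr
    have hr0 : 0 < r := by positivity
    have hz : ∀ x, r ≤ |x| → ζ x = 0 := by
      intro x hx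
      apply image_eq_zero_of_notMem_tsupport
      intro h
      have := hR h
      rw [Metric.mem_closedBall, dist_zero_right, Real.norm_eq_abs] at this
      linarith [le_abs_self R]
    have hcs : ∀ x ∉ Ioc (-r) r, F x * deriv ζ x - S x * ζ x = 0 := by
      intro x hx
      have hx2 : r ≤ |x| := by
        by_contra hcon
        rw [not_le] at hcon
        have := abs_lt.mp hcon
        exact hx ⟨this.1, this.2.le⟩
      have h1 : ζ x = 0 := hz x hx2
      have h2 : deriv ζ x = 0 := by
        apply image_eq_zero_of_notMem_tsupport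
        intro h
        have h3 := hR ((isClosed_tsupport ζ).closure_subset_iff.mpr (support_deriv_subset) h)
        rw [Metric.mem_closedBall, dist_zero_right, Real.norm_eq_abs] at h3
        linarith [le_abs_self R]
      rw [h1, h2]; ring
    rw [← setIntegral_eq_integral_of_forall_compl_eq_zero hcs,
      ← intervalIntegral.integral_of_le (by linarith)]
    have h1 := integral_eq_of_hasDerivAt_off_countable (a := -r) (b := r) (fun x => F x * ζ x)
      (fun x => F x * deriv ζ x - S x * ζ x) ex_countable (F_cont.mul hζ.continuous).continuousOn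
      (fun x hx => by
        have h2 := (F_der hx.2).fun_mul ((hζ.differentiable (by simp)) x).hasDerivAt
        refine h2.congr_deriv ?_
        ring)
      (((F_cont.mul hζd).sub (S_cont.mul hζ.continuous)).intervalIntegrable _ _)
    rw [h1, hz r (le_abs_self r), hz (-r) (by rw [abs_neg]; exact le_abs_self r)]; ring
  rw [integral_sub i1 i2] at e
  linarith

lemma weight : IsWeight a := by
  refine ⟨a_cont.measurable, 1, 2, one_pos, one_le_two, Eventually.of_forall fun x => ?_⟩
  unfold a ap
  by_cases h : |x| ≤ Real.pi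
  · rw [if_pos h]
    have := Real.sin_sq_add_cos_sq |x|
    constructor <;> nlinarith [sq_nonneg (Real.sin |x|), sq_nonneg (Real.cos |x|)]
  · rw [if_neg h]; norm_num

lemma constraint : ConstraintK φ := by
  have htop : Tendsto pp atTop (𝓝 (Real.pi / 2)) := by
    have h1 : Tendsto (fun x : ℝ => Real.sinh (x - Real.pi)) atTop atTop := by
      refine tendsto_atTop_mono' atTop ?_ (tendsto_atTop_add_const_right _ (-Real.pi) tendsto_id)
      filter_upwards [eventually_ge_atTop Real.pi] with x hx
      exact Real.self_le_sinh_iff.mpr (by simp only [id]; linarith)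
    have h2 := (Real.tendsto_arctan_atTop.mono_right nhdsWithin_le_nhds).comp h1
    refine h2.congr' ?_
    filter_upwards [eventually_gt_atTop Real.pi] with x hx
    unfold pp; rw [if_neg (not_le.mpr hx)]; rfl
  refine ⟨by unfold φ; rw [if_pos le_rfl]; exact pp_zero, ?_, ?_⟩
  · refine htop.congr' ?_
    filter_upwards [eventually_ge_atTop 0] with x hx
    unfold φ; rw [if_pos hx]
  · refine ((htop.comp tendsto_neg_atBot_atTop).neg).congr' ?_
    filter_upwards [eventually_lt_atBot 0] with x hx
    unfold φ; rw [if_neg (not_le.mpr hx)]; rfl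

/-- The bounds asked for fail: there are a weight `a` and a solution `φ ∈ Ḣ¹(ℝ)` of the weighted
pendulum equation on `ℝ \\ {0}` (indeed on all of `ℝ`) satisfying the constraints, with `φ < 0` on
`(0,π)` and `φ > 0` on `(-π,0)`. -/
theorem result :
    ¬ (∀ a φ g : ℝ → ℝ, IsWeight a → IsHdot1 φ g → SolvesE a φ g → ConstraintK φ →
      ∀ x : ℝ, 0 < x → -(Real.pi / 2) ≤ φ (-x) ∧ φ (-x) ≤ 0 ∧ 0 ≤ φ x ∧ φ x ≤ Real.pi / 2) ∧
    ∃ a φ g : ℝ → ℝ, IsWeight a ∧ IsHdot1 φ g ∧ SolvesE a φ g ∧ ConstraintK φ ∧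
      ∀ x : ℝ, 0 < x → x < Real.pi → φ x < 0 ∧ 0 < φ (-x) := by
  have hneg : ∀ x : ℝ, 0 < x → x < Real.pi → φ x < 0 ∧ 0 < φ (-x) := by
    intro x h0 h1
    have h2 : 0 < Real.arctan (Real.sin x) := Real.arctan_pos.mpr (Real.sin_pos_of_pos_of_lt_pi h0 h1)
    have h3 : pp x = -Real.arctan (Real.sin x) := by unfold pp; rw [if_pos h1.le]
    constructor
    · unfold φ; rw [if_pos h0.le, h3]; linarith
    · unfold φ; rw [if_neg (by linarith), neg_neg, h3]; linarith
  have hsol : SolvesE a φ g := fun ζ h1 h2 _ => weak ζ h1 h2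
  refine ⟨fun H => ?_, a, φ, g, weight, hdot, hsol, constraint, hneg⟩
  have h1 := (H a φ g weight hdot hsol constraint 1 one_pos).2.2.1
  have h2 := (hneg 1 one_pos (by linarith [Real.pi_gt_three])).1
  linarith

end Pool.Agent.Results.MP_4601b9_an.SignChange
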